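import Pool.Agent.Q36.GV.Hy
import Pool.Agent.Q36.PT.Fi

/-!
Quotients of products of curves by finite groups: general type and coverings by curves of genus at
most one.
-/

set_option autoImplicit false
set_option linter.overlappingInstances false
set_option linter.unusedSectionVars false

open Polynomial FF IsDedekindDomain IntermediateField
open Pool.Agent.W603.LV Pool.Agent.W619.PQ Pool.Agent.W619.PL
  Pool.Agent.W619.TW Pool.Agent.W619.X Pool.Agent.W619.Y Q36.PT Q36.SD Q36.HB Q36.HL Q36.GV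

namespace Q36.QH

variable {k L : Type} [Field k] [CharZero k] [IsAlgClosed k] [Field L] [Algebra k L] {n : ℕ}

theorem fin_fixed (G : Subgroup (L ≃ₐ[k] L)) [Finite G] : FiniteDimensional (fixedField G) L := by
  have hGal : IsGaloisGroup G (fixedField G) L := isGaloisGroup_fixed G
  exact IsGaloisGroup.finiteDimensional G (fixedField G) L

/-- **The plurigenera.** -/
theorem image_n (hn : Algebra.trdeg k L = n)
    (F : Fin n → IntermediateField k L) [hF : ∀ i, IsFF k (F i)]
    (halg : Algebra.IsAlgebraic ↥(⨆ i, F i) L)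
    (G : Subgroup (L ≃ₐ[k] L)) [Finite G] (σ : G →* Equiv.Perm (Fin n))
    (hσ : ∀ (g : G) i, ∀ z ∈ F i, (g : L ≃ₐ[k] L) z ∈ F (σ g i))
    (h : MixedPos G σ F) (hirr : ∀ i, ¬ ∃ t : F i, k⟮t⟯ = ⊤) (hell : ∀ i, ¬ IsElliptic (F i))
    (m : ℕ) (hm : (48 ≤ m ∧ 12 ∣ m) ∨ m = 42) :
    ImageGe k (fixedField G) n (fun _ => False) m n := by
  have hn0 : Algebra.trdeg k L = (0 + n : ℕ) := by rw [hn, zero_add]
  have h1 := mixed48 hn0 F halg G σ hσ h hirr m (hm.imp id fun h => ⟨h, hell⟩)
  have h2 : {i : Fin n | ¬ IsElliptic (F i)}.ncard = n := by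
    have h3 : {i : Fin n | ¬ IsElliptic (F i)} = Set.univ := by
      ext i
      simp [hell i]
    rw [h3, Set.ncard_univ, Nat.card_fin]
  rwa [zero_add, h2] at h1

/-- **Quotients of products of curves.** -/
theorem quot_tfae (hn : Algebra.trdeg k L = n)
    (F : Fin n → IntermediateField k L) [hF : ∀ i, IsFF k (F i)] (hsup : ⨆ i, F i = ⊤)
    (G : Subgroup (L ≃ₐ[k] L)) [Finite G] (σ : G →* Equiv.Perm (Fin n))
    (hσ : ∀ (g : G) i, ∀ z ∈ F i, (g : L ≃ₐ[k] L) z ∈ F (σ g i))
    (h : MixedPos G σ F) :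
    List.TFAE [ImageGe k (fixedField G) n (fun _ => False) 42 n,
      ImageGe k (fixedField G) n (fun _ => False) 48 n,
      ∃ m, ImageGe k (fixedField G) n (fun _ => False) m n,
      ∀ i, ¬ IsElliptic (F i) ∧ ¬ ∃ t : F i, k⟮t⟯ = ⊤,
      ¬ CovSmall k (fixedField G) n] := by
  classical
  have hess : ∀ i, Algebra.EssFiniteType k (F i) := fun i => IsFF.ess
  have hL : Algebra.EssFiniteType k L := ess_of_sup F hsup
  obtain ⟨hK, hKn⟩ := ess_fixed hn G
  have hfin : FiniteDimensional (fixedField G) L := fin_fixed G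
  tfae_have 1 → 3 := fun h => ⟨42, h⟩
  tfae_have 2 → 3 := fun h => ⟨48, h⟩
  tfae_have 3 → 5 := fun ⟨m, h⟩ hcov => not_big_of_cov hcov h
  tfae_have 4 → 1 := fun h4 => image_n hn F (Q36.PT.alg_of_sup F hsup) G σ hσ h (fun i => (h4 i).2)
    (fun i => (h4 i).1) 42 (Or.inr rfl)
  tfae_have 4 → 2 := fun h4 => image_n hn F (Q36.PT.alg_of_sup F hsup) G σ hσ h (fun i => (h4 i).2)
    (fun i => (h4 i).1) 48 (Or.inl ⟨le_rfl, ⟨4, rfl⟩⟩)
  tfae_have 5 → 4 := by
    intro h5 i
    have key : (IsElliptic (F i) ∨ ∃ t : F i, k⟮t⟯ = ⊤) → False := by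
      intro hi
      apply h5
      have hd : ∀ i, Algebra.trdeg k (F i) = ((fun _ => 1 : Fin n → ℕ) i : ℕ) := fun i => by
        have h4 := IsFF.trdeg (k := k) (K := F i)
        rw [h4]
        norm_num
      have hsum : ∑ i, (fun _ => 1 : Fin n → ℕ) i = n := by simp
      have h1 := part_trdeg F hd (by rw [hsum]; exact hn) hsup (Finset.univ.erase i)
      have h2 : ∑ j ∈ Finset.univ.erase i, (fun _ => 1 : Fin n → ℕ) j + 1 = n := by
        have h3 := Finset.sum_erase_add Finset.univ (fun _ => 1 : Fin n → ℕ) (Finset.mem_univ i)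
        rw [hsum] at h3
        exact h3
      refine ⟨L, inferInstance, inferInstance, inferInstance, inferInstance, hfin,
        part F (Finset.univ.erase i), F i, _, h2.symm, hn, h1, hF i, hi, ?_⟩
      rw [eq_top_iff, ← hsup]
      refine iSup_le fun j => ?_
      by_cases hj : j = i
      · rw [hj]
        exact le_sup_right
      · exact (le_part F (Finset.mem_erase.2 ⟨hj, Finset.mem_univ _⟩)).trans le_sup_left
    exact ⟨fun h => key (Or.inl h), fun h => key (Or.inr h)⟩
  tfae_finish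

end Q36.QH
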